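import Pool.Agent.H705.TR.Stm

/-! LAW: the limit law of the loss, from the parts. -/

set_option autoImplicit false

namespace Pool.Agent.H383.TR

open MeasureTheory ProbabilityTheory Finset Filter Topology
open Pool.Agent.H705.TR

/-- the number of levels -/
noncomputable def KK (N : ℕ) : ℕ := ⌈Real.log N ^ 5⌉₊

theorem tend_pow {a b : ℝ} (hab : a < b) (C : ℝ) : ∀ᶠ N : ℕ in atTop, C * (N : ℝ) ^ a ≤ (N : ℝ) ^ b := by
  have h1 : Tendsto (fun N : ℕ => (N : ℝ) ^ (b - a)) atTop atTop :=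
    (tendsto_rpow_atTop (by linarith)).comp tendsto_natCast_atTop_atTop
  filter_upwards [h1.eventually_ge_atTop C, eventually_gt_atTop 0] with N hN hN0
  have hN0' : (0 : ℝ) < N := by exact_mod_cast hN0
  calc C * (N : ℝ) ^ a ≤ (N : ℝ) ^ (b - a) * (N : ℝ) ^ a :=
        mul_le_mul_of_nonneg_right hN (Real.rpow_nonneg hN0'.le _)
    _ = (N : ℝ) ^ b := by rw [← Real.rpow_add hN0', sub_add_cancel]

theorem KK_le {η : ℝ} (hη : 0 < η) : ∀ᶠ N : ℕ in atTop, (KK N : ℝ) ≤ (N : ℝ) ^ η := by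
  have h1 : (fun x : ℝ => Real.log x ^ 5) =o[atTop] fun x => x ^ η := by
    have := isLittleO_log_rpow_rpow_atTop (5 : ℝ) hη
    refine this.congr_left fun x => ?_
    rw [← Real.rpow_natCast]
    norm_num
  have h2 : ∀ᶠ x : ℝ in atTop, ‖Real.log x ^ 5‖ ≤ (1 / 2) * ‖x ^ η‖ := h1.bound (by norm_num)
  have h3 := tendsto_natCast_atTop_atTop (R := ℝ) |>.eventually h2
  have h4 := tend_pow hη 2
  filter_upwards [h3, h4, eventually_ge_atTop 3] with N h5 h6 h7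
  have hN : (3 : ℝ) ≤ N := by exact_mod_cast h7
  have hlog : 0 ≤ Real.log N := Real.log_nonneg (by linarith)
  rw [Real.norm_of_nonneg (pow_nonneg hlog 5), Real.norm_of_nonneg (Real.rpow_nonneg (by linarith) _)]
    at h5
  rw [Real.rpow_zero, mul_one] at h6
  have h8 : (KK N : ℝ) < Real.log N ^ 5 + 1 := Nat.ceil_lt_add_one (pow_nonneg hlog 5)
  linarith

/-- growth of the loss -/
theorem growth {a d : ℝ} (ha : 0 < a) (had : a < d) : ∀ᶠ N : ℕ in atTop, ∀ z : ℕ, (z : ℝ) ≤ (N : ℝ) ^ a →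
    (KK N : ℝ) * (2 + KK N * (3 * z + 1) + 4) + 5 ≤ (N : ℝ) ^ d := by
  have hη : 0 < (d - a) / 4 := by linarith
  filter_upwards [KK_le hη, tend_pow (a := a + (d - a) / 2) (b := d) (by linarith) 15,
    eventually_ge_atTop 1] with N h1 h2 h3 z hz
  have hN : (1 : ℝ) ≤ N := by exact_mod_cast h3
  have hN0 : (0 : ℝ) < N := by linarith
  set u : ℝ := (N : ℝ) ^ ((d - a) / 4) with hu
  set v : ℝ := (N : ℝ) ^ a with hv
  have hu1 : 1 ≤ u := Real.one_le_rpow hN hη.le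
  have hv1 : 1 ≤ v := Real.one_le_rpow hN ha.le
  have huv : (N : ℝ) ^ (a + (d - a) / 2) = u * u * v := by
    rw [hu, hv, ← Real.rpow_add hN0, ← Real.rpow_add hN0]
    congr 1
    ring
  have hK0 : (0 : ℝ) ≤ KK N := Nat.cast_nonneg _
  have hz0 : (0 : ℝ) ≤ z := Nat.cast_nonneg _
  have h4 : (3 * (z : ℝ) + 1) ≤ 4 * v := by linarith
  have h5 : (KK N : ℝ) * (3 * z + 1) ≤ u * (4 * v) :=
    mul_le_mul h1 h4 (by positivity) (by linarith)
  have h6 : (2 + (KK N : ℝ) * (3 * z + 1) + 4) ≤ 10 * (u * v) := by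
    nlinarith [mul_le_mul hu1 hv1 zero_le_one (by linarith)]
  have h7 : (KK N : ℝ) * (2 + KK N * (3 * z + 1) + 4) ≤ u * (10 * (u * v)) :=
    mul_le_mul h1 h6 (by positivity) (by linarith)
  have h8 : 1 ≤ u * u * v := by
    have := mul_le_mul hu1 hu1 zero_le_one (by linarith)
    nlinarith
  rw [huv] at h2
  nlinarith

theorem ok_ev {a : ℝ} (ha : 0 < a) (ha1 : a < 1) : ∀ᶠ N : ℕ in atTop, ∀ z : ℕ, (z : ℝ) ≤ (N : ℝ) ^ a →
    Ok z ((N + 1) / 2) (KK N) 2 (N - 4) := by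
  have h1 := growth ha (show a < (a + 1) / 2 by linarith)
  have h2 := tend_pow (a := (a + 1) / 2) (b := 1) (by linarith) 8
  filter_upwards [h1, h2, eventually_ge_atTop 100] with N h3 h4 h5 z hz
  have h6 := h3 z hz
  rw [Real.rpow_one] at h4
  have hN : (100 : ℝ) ≤ N := by exact_mod_cast h5
  set T : ℕ := KK N * (2 + KK N * (3 * z + 1) + 4) with hT
  have h7 : ((T + 5 : ℕ) : ℝ) ≤ (N : ℝ) ^ ((a + 1) / 2) := by
    rw [hT]
    push_cast
    exact h6
  have h8 : 8 * (T + 5) ≤ N := by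
    have : ((8 * (T + 5) : ℕ) : ℝ) ≤ (N : ℝ) := by
      push_cast at h7 ⊢
      linarith
    exact_mod_cast this
  have h9 : KK N * (3 * z + 1) ≤ T := by
    rcases Nat.eq_zero_or_pos (KK N) with h0 | h0
    · rw [h0, zero_mul]
      exact Nat.zero_le _
    · rw [hT]
      nlinarith [Nat.zero_le (KK N * (3 * z + 1))]
  unfold Ok
  refine ⟨by norm_num, ?_⟩
  rw [← hT]
  omega

theorem sqrt_ev : ∀ᶠ N : ℕ in atTop, 6 * Nat.sqrt (N - 4 + 6) ≤ (N + 1) / 2 := by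
  filter_upwards [eventually_ge_atTop 400] with N hN
  have h1 : Nat.sqrt (N - 4 + 6) * Nat.sqrt (N - 4 + 6) ≤ N - 4 + 6 := Nat.sqrt_le _
  have h2 : Nat.sqrt (N - 4 + 6) ≤ N / 12 := by
    by_contra hcon
    push Not at hcon
    have h3 : N / 12 + 1 ≤ Nat.sqrt (N - 4 + 6) := hcon
    have h4 : (N / 12 + 1) * (N / 12 + 1) ≤ N - 4 + 6 := (Nat.mul_le_mul h3 h3).trans h1
    have h5 : 33 ≤ N / 12 := by omega
    have h6 : N < 12 * (N / 12 + 1) := by omega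
    have h7 : 34 * (N / 12 + 1) ≤ (N / 12 + 1) * (N / 12 + 1) := Nat.mul_le_mul (by omega) le_rfl
    omega
  omega

theorem sq_ev {a : ℝ} (ha1 : a < 1 / 2) : ∀ᶠ N : ℕ in atTop, ∀ z : ℕ, (z : ℝ) ≤ (N : ℝ) ^ a →
    z ^ 2 ≤ (N + 1) / 2 := by
  filter_upwards [tend_pow (a := a + a) (b := 1) (by linarith) 2, eventually_ge_atTop 1] with N h1 h2 z hz
  have hN0 : (0 : ℝ) < N := by exact_mod_cast h2
  rw [Real.rpow_one, Real.rpow_add hN0] at h1
  have h3 : (z : ℝ) * z ≤ (N : ℝ) ^ a * (N : ℝ) ^ a :=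
    mul_le_mul hz hz (Nat.cast_nonneg _) (Real.rpow_nonneg hN0.le _)
  have h4 : ((2 * z ^ 2 : ℕ) : ℝ) ≤ N := by
    push_cast
    nlinarith
  have h5 : 2 * z ^ 2 ≤ N := by exact_mod_cast h4
  omega

/-- the error -/
theorem err_tendsto {c₀ : ℝ} (hc : 0 < c₀) :
    ∀ θ : ℝ, 0 < θ → ∀ᶠ N : ℕ in atTop, c₀ / Real.log N ^ 3 ≤ 1 → (1 - c₀ / Real.log N ^ 3) ^ KK N ≤ θ := by
  intro θ hθ
  have h1 : Tendsto (fun N : ℕ => Real.log (N : ℝ)) atTop atTop :=
    Real.tendsto_log_atTop.comp tendsto_natCast_atTop_atTop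
  have h2 : Tendsto (fun N : ℕ => c₀ * Real.log (N : ℝ) ^ 2) atTop atTop :=
    ((tendsto_pow_atTop two_ne_zero).comp h1).const_mul_atTop hc
  have h3 : Tendsto (fun N : ℕ => Real.exp (-(c₀ * Real.log (N : ℝ) ^ 2))) atTop (𝓝 0) :=
    Real.tendsto_exp_neg_atTop_nhds_zero.comp h2
  filter_upwards [h3.eventually_le_const hθ, h1.eventually_ge_atTop 1] with N h4 h5 h6
  refine le_trans ?_ h4
  set δ : ℝ := c₀ / Real.log N ^ 3 with hδ
  have hl : 0 < Real.log (N : ℝ) := by linarith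
  have h7 : 1 - δ ≤ Real.exp (-δ) := by
    have := Real.add_one_le_exp (-δ)
    linarith
  have h8 : (1 - δ) ^ KK N ≤ Real.exp (-δ) ^ KK N := pow_le_pow_left₀ (by linarith) h7 _
  refine h8.trans ?_
  rw [← Real.exp_nat_mul]
  refine Real.exp_le_exp.2 ?_
  have h9 : Real.log (N : ℝ) ^ 5 ≤ KK N := Nat.le_ceil _
  have h10 : c₀ * Real.log (N : ℝ) ^ 2 = Real.log (N : ℝ) ^ 5 * δ := by
    rw [hδ]
    field_simp
  have hδ0 : 0 ≤ δ := by positivity
  have h11 : Real.log (N : ℝ) ^ 5 * δ ≤ KK N * δ := mul_le_mul_of_nonneg_right h9 hδ0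
  rw [h10]
  linarith

/-- what the parts give for one large `N` -/
theorem main_ev (hRCH : P_RCH) (hIND : P_IND) (hUN : P_UN) (hNT1 : P_NT1) (hNT2 : P_NT2)
    (Ω : Type) [MeasurableSpace Ω] (M : ℕ → ℕ) (P : Measure Ω) (X : ℕ → Ω → ℕ)
    (hM : ∀ c, Full c (M c)) (hX : Model M P X) {s ε θ : ℝ} (hs : 0 < s) (hs1 : s < 1) (hε : 0 < ε)
    (hθ : 0 < θ) :
    ∀ᶠ N : ℕ in atTop,
      (s ^ 3 - ε) * P.real {ω | Reach ⌊(N : ℝ) ^ (s / 2)⌋₊ (fun _ _ => True) (KK N) 2 (N - 4) fun i => X i ω} ≤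
        P.real {ω | Reach ⌊(N : ℝ) ^ (s / 2)⌋₊ Free (KK N) 2 (N - 4) fun i => X i ω} ∧
      P.real {ω | Reach ⌊(N : ℝ) ^ (s / 2)⌋₊ Free (KK N) 2 (N - 4) fun i => X i ω} ≤
        (s ^ 3 + ε) * P.real {ω | Reach ⌊(N : ℝ) ^ (s / 2)⌋₊ (fun _ _ => True) (KK N) 2 (N - 4) fun i => X i ω} ∧
      1 - θ ≤ P.real {ω | Reach ⌊(N : ℝ) ^ (s / 2)⌋₊ (fun _ _ => True) (KK N) 2 (N - 4) fun i => X i ω} ∧
      MeasurableSet {ω | Reach ⌊(N : ℝ) ^ (s / 2)⌋₊ (fun _ _ => True) (KK N) 2 (N - 4) fun i => X i ω} := by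
  obtain ⟨c₀, hc₀, hc⟩ := hNT1
  have hP := hX.prob
  filter_upwards [ok_ev (a := s / 2) (by linarith) (by linarith), err_tendsto hc₀ θ hθ, hNT2 s hs hs1 ε hε,
    eventually_ge_atTop 10] with N h1 h2 h3 h4
  set z : ℕ := ⌊(N : ℝ) ^ (s / 2)⌋₊ with hz
  have hz1 : (z : ℝ) ≤ (N : ℝ) ^ (s / 2) := Nat.floor_le (Real.rpow_nonneg (Nat.cast_nonneg _) _)
  have hOk := h1 z hz1
  have hN10 : (10 : ℝ) ≤ N := by exact_mod_cast h4
  have hδ1 : c₀ / Real.log N ^ 3 ≤ 1 := by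
    refine (hc z N (M N) (by omega) (hM N)).trans ?_
    rw [← (hUN Ω M P X hX N (R z N)).2]
    exact measureReal_le_one
  have hδ0 : 0 ≤ c₀ / Real.log N ^ 3 := by
    have : 0 ≤ Real.log (N : ℝ) := Real.log_nonneg (by linarith)
    positivity
  have hδ : ∀ c, (N + 1) / 2 ≤ c → c ≤ N → c₀ / Real.log N ^ 3 ≤ P.real {ω | R z c (X c ω)} := by
    intro c hc1 hc2
    rw [(hUN Ω M P X hX c (R z c)).2]
    refine le_trans ?_ (hc z c (M c) (by omega) (hM c))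
    have h5 : (2 : ℝ) ≤ c := by
      have : 2 ≤ c := by omega
      exact_mod_cast this
    have h6 : 0 < Real.log (c : ℝ) := Real.log_pos (by linarith)
    have h7 : Real.log (c : ℝ) ≤ Real.log N := Real.log_le_log (by linarith) (by exact_mod_cast hc2)
    have h8 : Real.log (c : ℝ) ^ 3 ≤ Real.log N ^ 3 := pow_le_pow_left₀ h6.le h7 3
    exact div_le_div_of_nonneg_left hc₀.le (pow_pos h6 3) h8
  have hA := hIND Ω M P X hX z ((N + 1) / 2) N Free (s ^ 3 - ε) (s ^ 3 + ε) (c₀ / Real.log N ^ 3) hδ0 hδ1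
    (fun c hc1 hc2 => by
      have h5 := h3 c (M c) (by omega) hc2 (hM c)
      rw [(hUN Ω M P X hX c (R z c)).2, (hUN Ω M P X hX c (fun y => R z c y ∧ Free c y)).2]
      refine ⟨h5.1, h5.2, ?_⟩
      rw [← (hUN Ω M P X hX c (R z c)).2]
      exact hδ c hc1 hc2) (KK N) 2 (N - 4) hOk (by omega)
  have hB := hIND Ω M P X hX z ((N + 1) / 2) N (fun _ _ => True) 1 1 (c₀ / Real.log N ^ 3) hδ0 hδ1
    (fun c hc1 hc2 => by
      have h5 : {ω | R z c (X c ω) ∧ True} = {ω | R z c (X c ω)} := by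
        ext ω
        exact iff_of_eq (and_true _)
      rw [h5]
      exact ⟨by rw [one_mul], by rw [one_mul], hδ c hc1 hc2⟩) (KK N) 2 (N - 4) hOk (by omega)
  exact ⟨hA.2.1, hA.2.2.1, by linarith [h2 hδ1, hA.2.2.2], hB.1⟩

theorem T_LAW (hRUN : P_RUN) (_ : P_FLB) (hLOW : P_LOW) (hUP : P_UP) (hRCH : P_RCH) (hIND : P_IND)
    (hUN : P_UN) (hNT1 : P_NT1) (hNT2 : P_NT2) : P_LAW := by
  intro Ω _ M P X hM hX t ht ht1
  have hP := hX.prob
  rw [tendsto_order]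
  constructor
  · intro a ha
    have hm : max a 0 < t ^ 3 := max_lt ha (by positivity)
    have h1 : ∀ᶠ s in 𝓝[<] t, max a 0 < s ^ 3 :=
      ((continuous_pow 3).continuousAt.tendsto.eventually (lt_mem_nhds hm)).filter_mono nhdsWithin_le_nhds
    have h2 : ∀ᶠ s in 𝓝[<] t, s ∈ Set.Ioo 0 t := Ioo_mem_nhdsLT ht
    obtain ⟨s, hs1, hs2⟩ := (h1.and h2).exists
    set ρ : ℝ := (s ^ 3 + max a 0) / 2 with hρ
    have hρa : max a 0 < ρ := by linarith
    have hρ0 : 0 < ρ := (le_max_right a 0).trans_lt hρa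
    have hρa' : a < ρ := (le_max_left a 0).trans_lt hρa
    have hε : 0 < s ^ 3 - ρ := by linarith
    have hθ : 0 < (ρ - max a 0) / (2 * ρ) := by
      apply div_pos (by linarith) (by linarith)
    filter_upwards [main_ev hRCH hIND hUN hNT1 hNT2 Ω M P X hM hX hs2.1 (by linarith [hs2.2]) hε hθ,
      growth (a := s / 2) (d := t / 2) (by linarith [hs2.1]) (by linarith [hs2.2]),
      ok_ev (a := s / 2) (by linarith [hs2.1]) (by linarith [hs2.2]), eventually_ge_atTop 10] with N h3 h4 h5 h6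
    set z : ℕ := ⌊(N : ℝ) ^ (s / 2)⌋₊ with hz
    have hz1 : (z : ℝ) ≤ (N : ℝ) ^ (s / 2) := Nat.floor_le (Real.rpow_nonneg (Nat.cast_nonneg _) _)
    have hsub : {ω | Reach z Free (KK N) 2 (N - 4) fun i => X i ω} ⊆
        {ω | (N : ℝ) - F (fun c => X c ω) N ≤ (N : ℝ) ^ (t / 2)} := by
      intro ω hω
      have h7 := hLOW z ((N + 1) / 2) (KK N) 2 (N - 4) (fun i => X i ω) (h5 z hz1) hω
      have h8 := (hRUN (fun i => X i ω) N (by omega)).2
      have h9 := h7.2.1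
      rw [← h8] at h9
      have h10 : N ≤ F (fun i => X i ω) N + (KK N * (2 + KK N * (3 * z + 1) + 4) + 5) := by omega
      have h11 : (N : ℝ) ≤ F (fun i => X i ω) N + ((KK N : ℝ) * (2 + KK N * (3 * z + 1) + 4) + 5) := by
        exact_mod_cast h10
      have h12 := h4 z hz1
      show (N : ℝ) - F (fun c => X c ω) N ≤ (N : ℝ) ^ (t / 2)
      linarith
    have h13 := measureReal_mono (μ := P) hsub
    have h14 : s ^ 3 - (s ^ 3 - ρ) = ρ := by ring
    rw [h14] at h3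
    have h15 : ρ * (1 - (ρ - max a 0) / (2 * ρ)) = (ρ + max a 0) / 2 := by
      field_simp
      ring
    have h16 : ρ * (1 - (ρ - max a 0) / (2 * ρ)) ≤
        ρ * P.real {ω | Reach z (fun _ _ => True) (KK N) 2 (N - 4) fun i => X i ω} :=
      mul_le_mul_of_nonneg_left h3.2.2.1 hρ0.le
    have h17 := le_max_left a 0
    linarith [h3.1]
  · intro a ha
    rcases lt_or_eq_of_le ht1 with ht1 | ht1
    swap
    · rw [ht1, one_pow] at ha
      exact Eventually.of_forall fun N => lt_of_le_of_lt measureReal_le_one ha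
    have h1 : ∀ᶠ s in 𝓝[>] t, s ^ 3 < a :=
      ((continuous_pow 3).continuousAt.tendsto.eventually (gt_mem_nhds ha)).filter_mono nhdsWithin_le_nhds
    have h2 : ∀ᶠ s in 𝓝[>] t, s ∈ Set.Ioo t 1 := Ioo_mem_nhdsGT ht1
    obtain ⟨s, hs1, hs2⟩ := (h1.and h2).exists
    have hs0 : 0 < s := ht.trans hs2.1
    have hε : 0 < (a - s ^ 3) / 3 := by linarith
    filter_upwards [main_ev hRCH hIND hUN hNT1 hNT2 Ω M P X hM hX hs0 hs2.2 hε hε,
      ok_ev (a := s / 2) (by linarith) (by linarith [hs2.2]),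
      sq_ev (a := s / 2) (by linarith [hs2.2]), sqrt_ev, eventually_ge_atTop 10] with N h3 h5 h5' h5'' h6
    set z : ℕ := ⌊(N : ℝ) ^ (s / 2)⌋₊ with hz
    have hz1 : (z : ℝ) ≤ (N : ℝ) ^ (s / 2) := Nat.floor_le (Real.rpow_nonneg (Nat.cast_nonneg _) _)
    have hz2 : (N : ℝ) ^ (s / 2) < z + 1 := Nat.lt_floor_add_one _
    have hN1 : (1 : ℝ) ≤ N := by
      have : 1 ≤ N := by omega
      exact_mod_cast this
    have hts : (N : ℝ) ^ (t / 2) ≤ (N : ℝ) ^ (s / 2) :=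
      Real.rpow_le_rpow_of_exponent_le hN1 (by linarith [hs2.1])
    have hsub : {ω | (N : ℝ) - F (fun c => X c ω) N ≤ (N : ℝ) ^ (t / 2)} ⊆
        {ω | Reach z Free (KK N) 2 (N - 4) fun i => X i ω} ∪
        {ω | Reach z (fun _ _ => True) (KK N) 2 (N - 4) fun i => X i ω}ᶜ := by
      intro ω hω
      by_contra hcon
      rw [Set.mem_union, not_or, Set.mem_compl_iff, not_not] at hcon
      obtain ⟨hc1, hc2⟩ := hcon
      have h7 : Reach z (fun c y => ¬ Free c y) (KK N) 2 (N - 4) fun i => X i ω :=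
        (hRCH.2.2.1 z Free (KK N) 2 (N - 4) _ hc2).resolve_left hc1
      have h8 := hUP z ((N + 1) / 2) (KK N) 2 (N - 4) (fun i => X i ω) (h5 z hz1) (h5' z hz1) h5'' h7
      have h9 := (hRUN (fun i => X i ω) N (by omega)).2
      rw [← h9] at h8
      have h10 : F (fun i => X i ω) N + z + 5 ≤ N := by omega
      have h11 : (F (fun i => X i ω) N : ℝ) + z + 5 ≤ N := by exact_mod_cast h10
      have h12 : (N : ℝ) - F (fun c => X c ω) N ≤ (N : ℝ) ^ (t / 2) := hω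
      linarith
    have h13 := measureReal_mono (μ := P) hsub
    have h14 := measureReal_union_le (μ := P) {ω | Reach z Free (KK N) 2 (N - 4) fun i => X i ω}
      {ω | Reach z (fun _ _ => True) (KK N) 2 (N - 4) fun i => X i ω}ᶜ
    have h15 := probReal_compl_eq_one_sub (μ := P) h3.2.2.2
    have h16 : P.real {ω | Reach z (fun _ _ => True) (KK N) 2 (N - 4) fun i => X i ω} ≤ 1 :=
      measureReal_le_one
    have h17 : (s ^ 3 + (a - s ^ 3) / 3) *
        P.real {ω | Reach z (fun _ _ => True) (KK N) 2 (N - 4) fun i => X i ω} ≤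
        (s ^ 3 + (a - s ^ 3) / 3) * 1 :=
      mul_le_mul_of_nonneg_left h16 (by positivity)
    linarith [h3.2.1, h3.2.2.1]

end Pool.Agent.H383.TR
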